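import Pool.Agent.H168R2.UTD

/-! Characterisation of the graphs without isolated vertices with `Γ_t(G) = 2 Γ(G)`. -/

namespace Pool.Agent.Results.MP_5135a5_co.UpperTotalDominationEquality

open Pool.Agent.H168R2.UTD

/-- Let `G` be a finite graph without isolated vertices. Then `Γ_t(G) = 2 Γ(G)` if and only if `G`
has an induced matching with exactly `Γ(G)` edges whose vertex set is dominating. Moreover, for
every such induced matching, each vertex outside it is adjacent to both ends of some edge of the
matching, and the independence number of `G` equals `Γ(G)`; and the minimal total dominating sets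
with `2 Γ(G)` vertices are exactly the vertex sets of the dominating induced matchings
with `Γ(G)` edges. -/
theorem result {V : Type*} [Fintype V] (G : SimpleGraph V) (hG : ∀ v, ∃ u, G.Adj v u) :
    (upperTDom G = 2 * upperDom G ↔
      ∃ S : Finset V, IsIndMatching G S ∧ IsDom G S ∧ S.card = 2 * upperDom G) ∧
    (∀ S : Finset V, S.card = 2 * upperDom G →
      (Minimal (IsTDom G) S ↔ IsIndMatching G S ∧ IsDom G S)) ∧
    (∀ S : Finset V, IsIndMatching G S → IsDom G S → S.card = 2 * upperDom G →
      (∀ v, v ∉ S → ∃ x ∈ S, ∃ y ∈ S, G.Adj x y ∧ G.Adj v x ∧ G.Adj v y) ∧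
      G.indepNum = upperDom G) := by
  refine ⟨main G hG, ?_, ?_⟩
  · intro S hcard
    constructor
    · intro hS
      exact ⟨indMatching_of_eq hS hcard, tdom_dom hS.1⟩
    · rintro ⟨hS, hD⟩
      exact minimal_tdom_of_indMatching hS hD
  · intro S hS _ hcard
    exact ⟨fun v hv => both_ends hS hcard v hv, indepNum_eq hS hcard⟩

end Pool.Agent.Results.MP_5135a5_co.UpperTotalDominationEquality
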